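import Mathlib

/-!
# Stability for polynomials over `F_p` with range sum `p`

For an odd prime `p` and a non-constant polynomial `P` over `F_p` whose range sum is `p`, either `P`
is an affine translate of one of the two exceptional polynomials `E₁`, `E₂` of degree `(p-1)/2`, or
`deg P ≥ (16/31) (p-1)`.

Idea of the proof.  Put `h = ∏ (X - x)^(P x)`, a monic polynomial of degree `p`.  Then
`(X^p - X) h' = - P h`, the polynomial `K = h' + P` has degree exactly `2 deg P + 1 - p`, and
`K(x) = P(x)` whenever `P(x) ≥ 2`.  So each value `≥ 2` is taken at most `deg K` times, and hence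
`y = ∏_{P(x) ≥ 2} (X - x)` has small degree.  With `y P (P-1) = (X^p - X) M` one finds that `2P - 1`
divides the Wronskian type expression `M y' - M' y - 4 M²`, which is nonzero when `K` is not
constant; this forces `deg P ≤ 2 deg M`.  The case of constant `K` is the extremal case.
-/

open Polynomial Finset

namespace Pool.Agent.Results.MP_b68c19_nt.Stability

variable {p : ℕ} [hp : Fact p.Prime]

/-- the polynomial with roots counted by range values -/
noncomputable def hpoly (P : (ZMod p)[X]) : (ZMod p)[X] :=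
  ∏ x : ZMod p, (X - C x) ^ (P.eval x).val

lemma hpoly_monic (P : (ZMod p)[X]) : (hpoly P).Monic :=
  monic_prod_of_monic _ _ fun x _ => (monic_X_sub_C x).pow _

lemma hpoly_natDegree (P : (ZMod p)[X]) :
    (hpoly P).natDegree = ∑ x : ZMod p, (P.eval x).val := by
  unfold hpoly
  rw [natDegree_prod_of_monic _ _ fun x _ => (monic_X_sub_C x).pow _]
  refine Finset.sum_congr rfl fun x _ => ?_
  rw [(monic_X_sub_C x).natDegree_pow, natDegree_X_sub_C, mul_one]

lemma sub_pow_p (x : ZMod p) : (X - C x : (ZMod p)[X]) ^ p = X ^ p - C x := by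
  rw [sub_pow_char, ← C_pow, ZMod.pow_card]

lemma key_factor (x : ZMod p) :
    (X ^ p - X : (ZMod p)[X]) = ((X - C x) ^ (p - 1) - 1) * (X - C x) := by
  rw [sub_mul, one_mul, ← pow_succ, Nat.sub_add_cancel hp.out.one_lt.le, sub_pow_p]
  ring

lemma step1 (P : (ZMod p)[X]) :
    (X ^ p - X) * derivative (hpoly P) =
      (∑ x : ZMod p, ((P.eval x).val : (ZMod p)[X]) * ((X - C x) ^ (p - 1) - 1)) * hpoly P := by
  unfold hpoly
  rw [derivative_prod_finset, Finset.mul_sum, Finset.sum_mul]
  refine Finset.sum_congr rfl fun x _ => ?_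
  rw [derivative_X_sub_C_pow]
  rw [← Finset.prod_erase_mul _ _ (Finset.mem_univ x)]
  rcases Nat.eq_zero_or_pos (P.eval x).val with h0 | h0
  · simp [h0]
  · rw [key_factor x]
    have : (X - C x : (ZMod p)[X]) ^ (P.eval x).val = (X - C x) ^ ((P.eval x).val - 1) * (X - C x) := by
      rw [← pow_succ, Nat.sub_add_cancel h0]
    rw [this]
    simp only [map_natCast]
    ring

lemma step2 (P : (ZMod p)[X]) (hdeg : P.natDegree < p) :
    (∑ x : ZMod p, ((P.eval x).val : (ZMod p)[X]) * ((X - C x) ^ (p - 1) - 1)) = - P := by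
  rw [← sub_eq_zero, sub_neg_eq_add]
  have hp1 : 1 < p := hp.out.one_lt
  apply Polynomial.eq_zero_of_degree_lt_of_eval_finset_eq_zero (s := Finset.univ)
  · rw [Finset.card_univ, ZMod.card]
    refine (degree_lt_iff_coeff_zero _ _).2 fun m hm => ?_
    rw [coeff_add, coeff_eq_zero_of_natDegree_lt (lt_of_lt_of_le hdeg hm), add_zero,
      finsetSum_coeff]
    refine Finset.sum_eq_zero fun x _ => ?_
    apply coeff_eq_zero_of_natDegree_lt
    refine lt_of_le_of_lt ?_ (lt_of_lt_of_le (Nat.sub_lt hp.out.pos one_pos) hm)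
    refine natDegree_mul_le.trans ?_
    rw [natDegree_natCast, zero_add]
    refine (natDegree_sub_le _ _).trans ?_
    simp
  · intro y _
    rw [eval_add, eval_finsetSum]
    rw [Finset.sum_eq_single y]
    · rw [eval_mul, eval_natCast, ZMod.natCast_zmod_val]
      simp [Nat.sub_ne_zero_of_lt hp1]
    · intro x _ hxy
      have : y - x ≠ 0 := sub_ne_zero.2 (Ne.symm hxy)
      simp [ZMod.pow_card_sub_one_eq_one this]
    · simp

lemma step3 (P : (ZMod p)[X]) (hdeg : P.natDegree < p) :
    (X ^ p - X) * derivative (hpoly P) = - P * hpoly P := by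
  rw [step1, step2 P hdeg]

/-- evaluation of hpoly vanishes where the value is nonzero -/
lemma hpoly_eval_eq_zero (P : (ZMod p)[X]) (x : ZMod p) (hx : P.eval x ≠ 0) :
    (hpoly P).eval x = 0 := by
  unfold hpoly
  rw [eval_prod]
  refine Finset.prod_eq_zero (Finset.mem_univ x) ?_
  have : (P.eval x).val ≠ 0 := fun h => hx ((ZMod.val_eq_zero _).1 h)
  simp [this]

lemma hpoly_derivative_eval (P : (ZMod p)[X]) (x : ZMod p) (hx : 2 ≤ (P.eval x).val) :
    (derivative (hpoly P)).eval x = 0 := by
  unfold hpoly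
  rw [← Finset.prod_erase_mul _ _ (Finset.mem_univ x), derivative_mul, derivative_X_sub_C_pow]
  have h1 : (P.eval x).val ≠ 0 := by omega
  have h2 : (P.eval x).val - 1 ≠ 0 := by omega
  simp [h1, h2]

/-- natDegree of the derivative for degrees below p -/
lemma natDegree_derivative_of_lt (f : (ZMod p)[X]) (h0 : 0 < f.natDegree) (hf : f.natDegree < p) :
    (derivative f).natDegree = f.natDegree - 1 := by
  refine le_antisymm (natDegree_derivative_le f) ?_
  apply le_natDegree_of_ne_zero
  rw [coeff_derivative, Nat.sub_add_cancel h0]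
  have h1 : f.coeff f.natDegree ≠ 0 := by
    rw [coeff_natDegree]; exact leadingCoeff_ne_zero.2 (fun h => by simp [h] at h0)
  refine mul_ne_zero h1 ?_
  have : ((f.natDegree - 1 : ℕ) : ZMod p) + 1 = (f.natDegree : ℕ) := by
    rw [← Nat.cast_succ]; congr 1; omega
  rw [this, Ne, ZMod.natCast_eq_zero_iff]
  exact Nat.not_dvd_of_pos_of_lt h0 hf


lemma monic_XpX : (X ^ p - X : (ZMod p)[X]).Monic := by
  apply monic_X_pow_sub
  rw [degree_X]
  exact_mod_cast hp.out.one_lt

lemma natDegree_XpX : (X ^ p - X : (ZMod p)[X]).natDegree = p :=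
  FiniteField.X_pow_card_sub_X_natDegree_eq _ hp.out.one_lt

lemma dvd_of_eval (f : (ZMod p)[X]) (h : ∀ x, f.eval x = 0) : (X ^ p - X) ∣ f := by
  rw [← Polynomial.modByMonic_eq_zero_iff_dvd monic_XpX]
  apply Polynomial.eq_zero_of_degree_lt_of_eval_finset_eq_zero (s := Finset.univ)
  · rw [Finset.card_univ, ZMod.card]
    have := degree_modByMonic_lt f (monic_XpX (p := p))
    rwa [degree_eq_natDegree monic_XpX.ne_zero, natDegree_XpX] at this
  · intro x _
    have h1 := modByMonic_add_div f (X ^ p - X : (ZMod p)[X])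
    have h2 := congrArg (eval x) h1
    rw [eval_add, eval_mul, h x] at h2
    have h3 : eval x (X ^ p - X : (ZMod p)[X]) = 0 := by simp [ZMod.pow_card]
    rw [h3, zero_mul, add_zero] at h2
    exact h2

lemma natDegree_hd (P : (ZMod p)[X]) (hS : ∑ x : ZMod p, (P.eval x).val = p)
    (hP0 : P ≠ 0) (hdeg : P.natDegree < p) :
    (derivative (hpoly P)).natDegree = P.natDegree ∧ derivative (hpoly P) ≠ 0 := by
  have h3 := step3 P hdeg
  have hh0 : hpoly P ≠ 0 := (hpoly_monic P).ne_zero
  have hne : derivative (hpoly P) ≠ 0 := by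
    intro h
    rw [h, mul_zero] at h3
    exact (mul_ne_zero (neg_ne_zero.2 hP0) hh0) h3.symm
  have := congrArg natDegree h3
  rw [natDegree_mul monic_XpX.ne_zero hne, natDegree_mul (neg_ne_zero.2 hP0) hh0, natDegree_neg,
    natDegree_XpX, hpoly_natDegree, hS] at this
  exact ⟨by omega, hne⟩

lemma natDegree_g (P : (ZMod p)[X]) (hS : ∑ x : ZMod p, (P.eval x).val = p)
    (hpos : 0 < P.natDegree) (hdeg : P.natDegree < p) :
    (hpoly P - X ^ p).natDegree = P.natDegree + 1 ∧
      derivative (hpoly P - X ^ p) = derivative (hpoly P) := by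
  have hP0 : P ≠ 0 := fun h => by simp [h] at hpos
  have hder : derivative (hpoly P - X ^ p) = derivative (hpoly P) := by
    rw [derivative_sub, derivative_X_pow]
    simp
  refine ⟨?_, hder⟩
  obtain ⟨h1, h2⟩ := natDegree_hd P hS hP0 hdeg
  have hlt : (hpoly P - X ^ p).natDegree < p := by
    by_cases h0 : hpoly P - X ^ p = 0
    · rw [h0]; simpa using hp.out.pos
    rw [natDegree_lt_iff_degree_lt h0]
    have hd : (hpoly P).degree = p := by
      rw [degree_eq_natDegree (hpoly_monic P).ne_zero, hpoly_natDegree, hS]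
    have := degree_sub_lt_left (p := hpoly P) (q := X ^ p) (by rw [hd, degree_X_pow])
      (hpoly_monic P).ne_zero (by rw [(hpoly_monic P).leadingCoeff, (monic_X_pow p).leadingCoeff])
    rwa [hd] at this
  have hpos' : 0 < (hpoly P - X ^ p).natDegree := by
    rcases Nat.eq_zero_or_pos (hpoly P - X ^ p).natDegree with h | h
    · exfalso
      have h4 := natDegree_derivative_le (hpoly P - X ^ p)
      rw [hder, h1, h] at h4
      omega
    · exact h
  have := natDegree_derivative_of_lt _ hpos' hlt
  rw [hder, h1] at this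
  omega

lemma K_eq (P : (ZMod p)[X]) (hdeg : P.natDegree < p) :
    (derivative (hpoly P) + P) * hpoly P = (X + (hpoly P - X ^ p)) * derivative (hpoly P) := by
  have h3 := step3 P hdeg
  linear_combination h3

lemma K_natDegree (P : (ZMod p)[X]) (hS : ∑ x : ZMod p, (P.eval x).val = p)
    (hpos : 0 < P.natDegree) (hdeg : P.natDegree < p) :
    (derivative (hpoly P) + P).natDegree + p = 2 * P.natDegree + 1 ∧
      derivative (hpoly P) + P ≠ 0 := by
  have hP0 : P ≠ 0 := fun h => by simp [h] at hpos
  obtain ⟨h1, h2⟩ := natDegree_hd P hS hP0 hdeg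
  obtain ⟨h4, h5⟩ := natDegree_g P hS hpos hdeg
  have hK := K_eq P hdeg
  have hXg : (X + (hpoly P - X ^ p)).natDegree = P.natDegree + 1 := by
    rw [natDegree_add_eq_right_of_natDegree_lt, h4]
    rw [natDegree_X, h4]; omega
  have hXg0 : X + (hpoly P - X ^ p) ≠ 0 := fun h => by
    rw [h, natDegree_zero] at hXg; omega
  have hKne : derivative (hpoly P) + P ≠ 0 := by
    intro h
    rw [h, zero_mul] at hK
    exact mul_ne_zero hXg0 h2 hK.symm
  have := congrArg natDegree hK
  rw [natDegree_mul hKne (hpoly_monic P).ne_zero, natDegree_mul hXg0 h2, hXg, h1,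
    hpoly_natDegree, hS] at this
  exact ⟨by omega, hKne⟩

lemma K_eval (P : (ZMod p)[X]) (x : ZMod p) (hx : 2 ≤ (P.eval x).val) :
    (derivative (hpoly P) + P).eval x = P.eval x := by
  rw [eval_add, hpoly_derivative_eval P x hx, zero_add]

/-- Wronskian-type relation: a zero Wronskian in degrees below p forces proportionality. -/
lemma proportional (A B : (ZMod p)[X]) (hA0 : A ≠ 0) (hA : A.natDegree < p) (hB : B.natDegree < p)
    (hW : A * derivative B = derivative A * B) : ∃ c : ZMod p, B = C c * A := by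
  -- first: nonzero solutions have the same degree as A
  have key : ∀ B : (ZMod p)[X], B ≠ 0 → B.natDegree < p →
      A * derivative B = derivative A * B → B.natDegree = A.natDegree := by
    intro B hB0 hB hW
    set a := A.natDegree with ha
    set b := B.natDegree with hb
    have e1 : (A * derivative B - derivative A * B).coeff (a + b - 1) = 0 := by
      rw [hW, sub_self, coeff_zero]
    rcases Nat.eq_zero_or_pos b with hb0 | hb0
    · -- B constant
      have hBc : B = C (B.coeff 0) := eq_C_of_natDegree_eq_zero (by rw [← hb]; exact hb0)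
      rw [hBc, derivative_C, mul_zero] at hW
      have hB00 : (C (B.coeff 0) : (ZMod p)[X]) ≠ 0 := by rw [← hBc]; exact hB0
      have hA' : derivative A = 0 := by
        rcases mul_eq_zero.1 hW.symm with h | h
        · exact h
        · exact absurd h hB00
      by_contra hne
      have hapos : 0 < a := by omega
      have := natDegree_derivative_of_lt A hapos hA
      have h7 : A.coeff A.natDegree = 0 := by
        have h8 : (derivative A).coeff (A.natDegree - 1) = 0 := by rw [hA', coeff_zero]
        rw [coeff_derivative, Nat.sub_add_cancel hapos] at h8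
        rcases mul_eq_zero.1 h8 with h | h
        · exact h
        · exfalso
          have h9 : ((A.natDegree - 1 : ℕ) : ZMod p) + 1 = (A.natDegree : ℕ) := by
            rw [← Nat.cast_succ]; congr 1; omega
          rw [h9, ZMod.natCast_eq_zero_iff] at h
          exact Nat.not_dvd_of_pos_of_lt hapos hA h
      rw [coeff_natDegree, leadingCoeff_eq_zero] at h7
      exact hA0 h7
    · rcases Nat.eq_zero_or_pos a with ha0 | ha0
      · -- A constant
        have hAc : A = C (A.coeff 0) := eq_C_of_natDegree_eq_zero (by rw [← ha]; exact ha0)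
        rw [hAc, derivative_C, zero_mul] at hW
        have hA00 : (C (A.coeff 0) : (ZMod p)[X]) ≠ 0 := by rw [← hAc]; exact hA0
        have hB' : derivative B = 0 := by
          rcases mul_eq_zero.1 hW with h | h
          · exact absurd h hA00
          · exact h
        exfalso
        have h8 : (derivative B).coeff (B.natDegree - 1) = 0 := by rw [hB', coeff_zero]
        rw [coeff_derivative, Nat.sub_add_cancel hb0] at h8
        rcases mul_eq_zero.1 h8 with h | h
        · rw [coeff_natDegree, leadingCoeff_eq_zero] at h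
          exact hB0 h
        · have h9 : ((B.natDegree - 1 : ℕ) : ZMod p) + 1 = (B.natDegree : ℕ) := by
            rw [← Nat.cast_succ]; congr 1; omega
          rw [h9, ZMod.natCast_eq_zero_iff] at h
          exact Nat.not_dvd_of_pos_of_lt hb0 hB h
      · have e2 : (A * derivative B).coeff (a + (b - 1)) = A.coeff a * (derivative B).coeff (b - 1) :=
          coeff_mul_add_eq_of_natDegree_le le_rfl (natDegree_derivative_le B)
        have e3 : (derivative A * B).coeff ((a - 1) + b) = (derivative A).coeff (a - 1) * B.coeff b :=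
          coeff_mul_add_eq_of_natDegree_le (natDegree_derivative_le A) le_rfl
        have i1 : a + (b - 1) = a + b - 1 := by omega
        have i2 : (a - 1) + b = a + b - 1 := by omega
        rw [coeff_sub, ← i1, e2] at e1
        rw [i1, ← i2, e3] at e1
        rw [coeff_derivative, coeff_derivative, Nat.sub_add_cancel ha0, Nat.sub_add_cancel hb0] at e1
        rw [ha, hb, coeff_natDegree, coeff_natDegree, ← ha, ← hb] at e1
        have j1 : ((a - 1 : ℕ) : ZMod p) + 1 = (a : ℕ) := by
          rw [← Nat.cast_succ]; congr 1; omega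
        have j2 : ((b - 1 : ℕ) : ZMod p) + 1 = (b : ℕ) := by
          rw [← Nat.cast_succ]; congr 1; omega
        rw [j1, j2] at e1
        have e4 : (A.leadingCoeff * B.leadingCoeff) * ((b : ZMod p) - (a : ZMod p)) = 0 := by
          linear_combination e1
        rcases mul_eq_zero.1 e4 with h | h
        · exfalso
          exact (mul_ne_zero (leadingCoeff_ne_zero.2 hA0) (leadingCoeff_ne_zero.2 hB0)) h
        · have h' := sub_eq_zero.1 h
          have := (ZMod.natCast_eq_natCast_iff' b a p).1 h'
          rwa [Nat.mod_eq_of_lt hB, Nat.mod_eq_of_lt hA] at this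
  by_cases hB0 : B = 0
  · exact ⟨0, by simp [hB0]⟩
  have hdegeq := key B hB0 hB hW
  refine ⟨B.leadingCoeff / A.leadingCoeff, ?_⟩
  set c := B.leadingCoeff / A.leadingCoeff with hc
  by_contra hne
  have hne' : B - C c * A ≠ 0 := sub_ne_zero.2 hne
  have hlA : A.leadingCoeff ≠ 0 := leadingCoeff_ne_zero.2 hA0
  have hlB : B.leadingCoeff ≠ 0 := leadingCoeff_ne_zero.2 hB0
  have hc0 : c ≠ 0 := div_ne_zero hlB hlA
  have hdCA : (C c * A).degree = A.degree := degree_C_mul hc0
  have hdeglt : (B - C c * A).degree < B.degree := by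
    apply degree_sub_lt_left
    · rw [hdCA, degree_eq_natDegree hB0, degree_eq_natDegree hA0, hdegeq]
    · exact hB0
    · rw [leadingCoeff_mul, leadingCoeff_C, hc]; field_simp
  have hnd : (B - C c * A).natDegree < B.natDegree := natDegree_lt_natDegree hne' hdeglt
  have := key (B - C c * A) hne' (lt_trans hnd hB) (by
    rw [derivative_sub, derivative_C_mul]
    linear_combination hW)
  omega


lemma main_identity (P y M : (ZMod p)[X]) (hM : y * P * (P - 1) = (X ^ p - X) * M) :
    (2 * P - 1) * (M * derivative y * (2 * P - 1) + 2 * M * y * (2 * derivative P)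
        - derivative M * y * (2 * P - 1))
      = M * derivative y - derivative M * y - 4 * M ^ 2 := by
  have h := congrArg derivative hM
  simp only [derivative_mul, derivative_sub, derivative_X_pow, derivative_X, derivative_one,
    CharP.cast_eq_zero, C_0, zero_mul, zero_sub, sub_zero] at h
  linear_combination 4 * M * h - 4 * derivative M * hM

/-- the product over the points where the value is at least 2 -/
noncomputable def ypoly (P : (ZMod p)[X]) : (ZMod p)[X] :=
  ∏ x ∈ univ.filter (fun x : ZMod p => 2 ≤ (P.eval x).val), (X - C x)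

lemma ypoly_natDegree (P : (ZMod p)[X]) :
    (ypoly P).natDegree = (univ.filter (fun x : ZMod p => 2 ≤ (P.eval x).val)).card := by
  unfold ypoly
  rw [natDegree_prod_of_monic _ _ fun x _ => monic_X_sub_C x]
  simp

lemma ypoly_monic (P : (ZMod p)[X]) : (ypoly P).Monic :=
  monic_prod_of_monic _ _ fun x _ => monic_X_sub_C x

lemma val_eq_one_iff (a : ZMod p) (h : a.val = 1) : a = 1 := by
  have := ZMod.natCast_zmod_val a
  rw [h] at this
  simpa using this.symm

lemma exists_M (P : (ZMod p)[X]) :
    ∃ M, ypoly P * P * (P - 1) = (X ^ p - X) * M := by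
  have := dvd_of_eval (ypoly P * P * (P - 1)) (fun x => by
    rw [eval_mul, eval_mul]
    rcases Nat.lt_or_ge (P.eval x).val 2 with h | h
    · interval_cases h' : (P.eval x).val
      · rw [(ZMod.val_eq_zero _).1 h']; simp
      · have := val_eq_one_iff _ h'
        simp [this]
    · have : (ypoly P).eval x = 0 := by
        unfold ypoly
        rw [eval_prod]
        exact Finset.prod_eq_zero (i := x) (by simp [h]) (by simp)
      rw [this]; simp)
  obtain ⟨M, hM⟩ := this
  exact ⟨M, hM⟩

lemma card_le_natDegree (f : (ZMod p)[X]) (hf : f ≠ 0) (s : Finset (ZMod p))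
    (h : ∀ x ∈ s, f.eval x = 0) : s.card ≤ f.natDegree := by
  by_contra hlt
  push Not at hlt
  apply hf
  apply Polynomial.eq_zero_of_degree_lt_of_eval_finset_eq_zero (s := s)
  · rw [degree_eq_natDegree hf]
    exact_mod_cast hlt
  · exact h

lemma sum_val_sub_one (P : (ZMod p)[X]) (hS : ∑ x : ZMod p, (P.eval x).val = p) :
    ∑ x : ZMod p, ((P.eval x).val - 1) =
      (univ.filter (fun x : ZMod p => P.eval x = 0)).card := by
  have h1 : ∀ x : ZMod p, ((P.eval x).val - 1) + 1 =
      (P.eval x).val + (if P.eval x = 0 then 1 else 0) := by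
    intro x
    split_ifs with h
    · simp [h]
    · have : (P.eval x).val ≠ 0 := fun h' => h ((ZMod.val_eq_zero _).1 h')
      omega
  have h2 : ∑ x : ZMod p, (((P.eval x).val - 1) + 1) =
      ∑ x : ZMod p, ((P.eval x).val + (if P.eval x = 0 then 1 else 0)) :=
    Finset.sum_congr rfl fun x _ => h1 x
  rw [Finset.sum_add_distrib, Finset.sum_add_distrib, hS, Finset.sum_const, Finset.card_univ,
    ZMod.card, ← Finset.card_filter] at h2
  simp only [smul_eq_mul, mul_one] at h2
  omega

lemma natDegree_M (P M : (ZMod p)[X]) (hpos : 0 < P.natDegree)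
    (hM : ypoly P * P * (P - 1) = (X ^ p - X) * M) :
    M.natDegree + p = (ypoly P).natDegree + 2 * P.natDegree ∧ M ≠ 0 := by
  have hP0 : P ≠ 0 := fun h => by simp [h] at hpos
  have hd1 : (P - 1).natDegree = P.natDegree := by
    rw [← C_1, natDegree_sub_C]
  have hP1 : P - 1 ≠ 0 := fun h => by rw [h, natDegree_zero] at hd1; omega
  have hM0 : M ≠ 0 := by
    rintro rfl
    rw [mul_zero] at hM
    exact mul_ne_zero (mul_ne_zero (ypoly_monic P).ne_zero hP0) hP1 hM
  have := congrArg natDegree hM
  rw [natDegree_mul (mul_ne_zero (ypoly_monic P).ne_zero hP0) hP1,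
    natDegree_mul (ypoly_monic P).ne_zero hP0, natDegree_mul monic_XpX.ne_zero hM0,
    natDegree_XpX, hd1] at this
  exact ⟨by omega, hM0⟩

lemma natDegree_R (hp2 : p ≠ 2) (P : (ZMod p)[X]) : (2 * P - 1).natDegree = P.natDegree := by
  have h2 : (2 : ZMod p) ≠ 0 := by
    have : ((2 : ℕ) : ZMod p) ≠ 0 := by
      rw [Ne, ZMod.natCast_eq_zero_iff]
      intro h
      exact hp2 ((Nat.prime_dvd_prime_iff_eq hp.out Nat.prime_two).1 h)
    exact_mod_cast this
  rw [← C_1, natDegree_sub_C]
  have : (2 : (ZMod p)[X]) = C 2 := (map_ofNat C 2).symm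
  rw [this, natDegree_C_mul h2]

lemma bound_of_K_pos (hp2 : p ≠ 2) (P : (ZMod p)[X]) (hS : ∑ x : ZMod p, (P.eval x).val = p)
    (hpos : 0 < P.natDegree) (hdeg : P.natDegree < p)
    (hK : 0 < (derivative (hpoly P) + P).natDegree) :
    16 * p ≤ 31 * P.natDegree + 12 := by
  have hP0 : P ≠ 0 := fun h => by simp [h] at hpos
  obtain ⟨M, hM⟩ := exists_M P
  obtain ⟨hMd, hM0⟩ := natDegree_M P M hpos hM
  obtain ⟨hKd, hK0⟩ := K_natDegree P hS hpos hdeg
  set K := derivative (hpoly P) + P with hKdef
  set k := K.natDegree with hk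
  set d := P.natDegree with hd
  set μ := M.natDegree with hμ
  have hy := ypoly_natDegree P
  set y0 := (ypoly P).natDegree with hy0
  obtain ⟨pm, hpm⟩ := hp.out.odd_of_ne_two hp2
  -- divisibility
  have hid := main_identity P (ypoly P) M hM
  have hW1 : (M * derivative (ypoly P) - derivative M * ypoly P).natDegree ≤ μ + y0 - 1 := by
    refine (natDegree_sub_le _ _).trans (max_le ?_ ?_)
    · rcases Nat.eq_zero_or_pos y0 with h | h
      · have : ypoly P = 1 := (ypoly_monic P).natDegree_eq_zero.1 (by rw [← hy0]; exact h)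
        rw [this]; simp
      · refine natDegree_mul_le.trans ?_
        have := natDegree_derivative_le (ypoly P)
        omega
    · rcases Nat.eq_zero_or_pos μ with h | h
      · have : M = C (M.coeff 0) := eq_C_of_natDegree_eq_zero (by rw [← hμ]; exact h)
        rw [this]; simp
      · refine natDegree_mul_le.trans ?_
        have := natDegree_derivative_le M
        omega
  have h4 : (4 : ZMod p) ≠ 0 := by
    have : ((4 : ℕ) : ZMod p) ≠ 0 := by
      rw [Ne, ZMod.natCast_eq_zero_iff]
      intro h
      have h' : p ∣ 2 ^ 2 := by simpa using h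
      exact hp2 ((Nat.prime_dvd_prime_iff_eq hp.out Nat.prime_two).1 (hp.out.dvd_of_dvd_pow h'))
    exact_mod_cast this
  have h4M : (4 * M ^ 2).natDegree = 2 * μ := by
    have : (4 : (ZMod p)[X]) = C 4 := (map_ofNat C 4).symm
    rw [this, natDegree_C_mul h4, natDegree_pow]
  have hlt : (M * derivative (ypoly P) - derivative M * ypoly P).natDegree < (4 * M ^ 2).natDegree := by
    rw [h4M]; omega
  have hWd : (M * derivative (ypoly P) - derivative M * ypoly P - 4 * M ^ 2).natDegree = 2 * μ := by
    rw [natDegree_sub_eq_right_of_natDegree_lt hlt, h4M]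
  have hW0 : M * derivative (ypoly P) - derivative M * ypoly P - 4 * M ^ 2 ≠ 0 := by
    intro h
    rw [h, natDegree_zero] at hWd
    omega
  have hdvd : (2 * P - 1) ∣ (M * derivative (ypoly P) - derivative M * ypoly P - 4 * M ^ 2) :=
    ⟨_, hid.symm⟩
  have hle := natDegree_le_of_dvd hdvd hW0
  rw [natDegree_R hp2, hWd] at hle
  -- counting
  have hn0 : (univ.filter (fun x : ZMod p => P.eval x = 0)).card ≤ d :=
    card_le_natDegree P hP0 _ (by simp)
  have hsum := sum_val_sub_one P hS
  have h5 : 4 * (univ.filter (fun x : ZMod p => 5 ≤ (P.eval x).val)).card ≤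
      ∑ x : ZMod p, ((P.eval x).val - 1) := by
    rw [Finset.card_filter, Finset.mul_sum]
    refine Finset.sum_le_sum fun x _ => ?_
    split_ifs with h <;> omega
  have hj : ∀ j : ℕ, 2 ≤ j → (univ.filter (fun x : ZMod p => (P.eval x).val = j)).card ≤ k := by
    intro j hj2
    have hne : K - C (j : ZMod p) ≠ 0 := by
      intro h
      have := natDegree_sub_C (p := K) (a := (j : ZMod p))
      rw [h, natDegree_zero] at this
      omega
    have := card_le_natDegree (K - C (j : ZMod p)) hne
      (univ.filter (fun x : ZMod p => (P.eval x).val = j)) (by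
        intro x hx
        rw [Finset.mem_filter] at hx
        rw [eval_sub, eval_C, hKdef, K_eval P x (by omega), ← hx.2, ZMod.natCast_zmod_val, sub_self])
    rwa [natDegree_sub_C] at this
  have hsplit : (univ.filter (fun x : ZMod p => 2 ≤ (P.eval x).val)).card ≤
      (univ.filter (fun x : ZMod p => (P.eval x).val = 2)).card +
      (univ.filter (fun x : ZMod p => (P.eval x).val = 3)).card +
      (univ.filter (fun x : ZMod p => (P.eval x).val = 4)).card +
      (univ.filter (fun x : ZMod p => 5 ≤ (P.eval x).val)).card := by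
    rw [Finset.card_filter, Finset.card_filter, Finset.card_filter, Finset.card_filter,
      Finset.card_filter, ← Finset.sum_add_distrib, ← Finset.sum_add_distrib,
      ← Finset.sum_add_distrib]
    refine Finset.sum_le_sum fun x _ => ?_
    split_ifs <;> omega
  have h2' := hj 2 le_rfl
  have h3' := hj 3 (by norm_num)
  have h4' := hj 4 (by norm_num)
  omega


lemma exists_ge_two (P : (ZMod p)[X]) (hS : ∑ x : ZMod p, (P.eval x).val = p)
    (hpos : 0 < P.natDegree) (hdeg : P.natDegree < p) :
    ∃ x : ZMod p, 2 ≤ (P.eval x).val := by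
  by_contra hcon
  push Not at hcon
  have hsum := sum_val_sub_one P hS
  have h0 : ∑ x : ZMod p, ((P.eval x).val - 1) = 0 :=
    Finset.sum_eq_zero fun x _ => by have := hcon x; omega
  rw [h0] at hsum
  have hemp := Finset.card_eq_zero.1 hsum.symm
  have hd1 : (P - 1).natDegree = P.natDegree := by
    rw [← C_1, natDegree_sub_C]
  have hP1 : P - 1 ≠ 0 := fun h => by rw [h, natDegree_zero] at hd1; omega
  have := card_le_natDegree (P - 1) hP1 Finset.univ (by
    intro x _
    have h1 : P.eval x ≠ 0 := by
      intro h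
      have : x ∈ univ.filter (fun x : ZMod p => P.eval x = 0) := by simp [h]
      rw [hemp] at this
      simp at this
    have h2 : (P.eval x).val = 1 := by
      have := hcon x
      have h3 : (P.eval x).val ≠ 0 := fun h => h1 ((ZMod.val_eq_zero _).1 h)
      omega
    rw [eval_sub, eval_one, val_eq_one_iff _ h2, sub_self])
  rw [Finset.card_univ, ZMod.card, hd1] at this
  omega

lemma two_ne_zero' (hp2 : p ≠ 2) : (2 : ZMod p) ≠ 0 := by
  have : ((2 : ℕ) : ZMod p) ≠ 0 := by
    rw [Ne, ZMod.natCast_eq_zero_iff]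
    intro h
    exact hp2 ((Nat.prime_dvd_prime_iff_eq hp.out Nat.prime_two).1 h)
  exact_mod_cast this

lemma sq_cases {d : ℕ} (A B : (ZMod p)[X]) (h : A ^ 2 = (B ^ d) ^ 2) : A = B ^ d ∨ A = - B ^ d :=
  sq_eq_sq_iff_eq_or_eq_neg.1 h

/-- signs are absorbed by an affine substitution -/
lemma exists_affine (hp2 : p ≠ 2) (d : ℕ) (hd : 2 * d + 1 = p) (c : ZMod p) :
    ∃ a b : ZMod p, a ≠ 0 ∧ (C a * X + C b : (ZMod p)[X]) ^ d = - (X + C c) ^ d := by
  have hchar : ringChar (ZMod p) ≠ 2 := by rw [ZMod.ringChar_zmod_n]; exact hp2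
  obtain ⟨a, ha⟩ := FiniteField.exists_nonsquare (F := ZMod p) hchar
  have ha0 : a ≠ 0 := by
    rintro rfl
    exact ha ⟨0, by simp⟩
  have hdiv : p / 2 = d := by omega
  have h1 : a ^ d = -1 := by
    have h2 := ZMod.pow_div_two_eq_neg_one_or_one p ha0
    rw [hdiv] at h2
    rcases h2 with h | h
    · exfalso
      exact ha ((ZMod.euler_criterion p ha0).2 (by rw [hdiv]; exact h))
    · exact h
  refine ⟨a, a * c, ha0, ?_⟩
  have : (C a * X + C (a * c) : (ZMod p)[X]) = C a * (X + C c) := by
    rw [C_mul]; ring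
  rw [this, mul_pow, ← C_pow, h1]
  simp

lemma case_three (hp2 : p ≠ 2) (P : (ZMod p)[X])
    (hpos : 0 < P.natDegree) (hdeg : 2 * P.natDegree + 1 = p)
    (hy : 0 < (ypoly P).natDegree) (hy2 : 2 * (ypoly P).natDegree ≤ P.natDegree) :
    ∃ c : ZMod p, 2 * P - 1 = (X + C c) ^ P.natDegree ∨ 2 * P - 1 = - (X + C c) ^ P.natDegree := by
  have hP0 : P ≠ 0 := fun h => by simp [h] at hpos
  obtain ⟨M, hM⟩ := exists_M P
  obtain ⟨hMd, hM0⟩ := natDegree_M P M hpos hM
  have hid := main_identity P (ypoly P) M hM
  have hW : (M * derivative (ypoly P) - derivative M * ypoly P - 4 * M ^ 2).natDegree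
      ≤ 2 * (ypoly P).natDegree - 2 := by
    refine (natDegree_sub_le _ _).trans (max_le ((natDegree_sub_le _ _).trans (max_le ?_ ?_)) ?_)
    · refine natDegree_mul_le.trans ?_
      have := natDegree_derivative_le (ypoly P)
      omega
    · rcases Nat.eq_zero_or_pos M.natDegree with h | h
      · have : M = C (M.coeff 0) := eq_C_of_natDegree_eq_zero h
        rw [this]; simp
      · refine natDegree_mul_le.trans ?_
        have := natDegree_derivative_le M
        omega
    · refine natDegree_mul_le.trans ?_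
      have h1 : (4 : (ZMod p)[X]).natDegree = 0 := by
        have : (4 : (ZMod p)[X]) = C 4 := (map_ofNat C 4).symm
        rw [this, natDegree_C]
      rw [h1, natDegree_pow]
      omega
  have hW0 : M * derivative (ypoly P) - derivative M * ypoly P - 4 * M ^ 2 = 0 := by
    by_contra hne
    have hdvd : (2 * P - 1) ∣ (M * derivative (ypoly P) - derivative M * ypoly P - 4 * M ^ 2) :=
      ⟨_, hid.symm⟩
    have hle := natDegree_le_of_dvd hdvd hne
    rw [natDegree_R hp2] at hle
    omega
  obtain ⟨c, hc⟩ := proportional M (ypoly P - 4 * M * X) hM0 (by omega)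
    (by
      refine lt_of_le_of_lt (natDegree_sub_le _ _) (max_lt (by omega) ?_)
      refine lt_of_le_of_lt natDegree_mul_le ?_
      have h1 : (4 : (ZMod p)[X]).natDegree = 0 := by
        have : (4 : (ZMod p)[X]) = C 4 := (map_ofNat C 4).symm
        rw [this, natDegree_C]
      have h2 : (4 * M).natDegree ≤ M.natDegree := by
        refine natDegree_mul_le.trans ?_
        omega
      rw [natDegree_X]
      omega)
    (by
      simp only [derivative_sub, derivative_mul, derivative_X, derivative_ofNat]
      linear_combination hW0)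
  have hy1 : ypoly P = M * (4 * X + C c) := by linear_combination hc
  have h4 : (4 : ZMod p) ≠ 0 := by
    have h22 : (4 : ZMod p) = 2 * 2 := by norm_num
    rw [h22]
    exact mul_ne_zero (two_ne_zero' hp2) (two_ne_zero' hp2)
  have hcc : C c = 4 * C (c / 4) := by
    have : (4 : (ZMod p)[X]) = C 4 := (map_ofNat C 4).symm
    rw [this, ← C_mul, mul_div_cancel₀ _ h4]
  have e1 : M * (4 * (X + C (c / 4)) * (2 * P - 1) ^ 2) = M * (4 * (X + C (c / 4)) ^ p) := by
    have h5 : (X + C (c / 4) : (ZMod p)[X]) ^ p = X ^ p + C (c / 4) := by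
      rw [add_pow_char, ← C_pow, ZMod.pow_card]
    rw [h5]
    rw [hy1, hcc] at hM
    linear_combination 4 * hM
  have e2 := mul_left_cancel₀ hM0 e1
  have h40 : (4 : (ZMod p)[X]) ≠ 0 := by
    have : (4 : (ZMod p)[X]) = C 4 := (map_ofNat C 4).symm
    rw [this]
    exact C_ne_zero.2 h4
  have hX0 : (X + C (c / 4) : (ZMod p)[X]) ≠ 0 := (monic_X_add_C _).ne_zero
  have e3 : (2 * P - 1) ^ 2 = ((X + C (c / 4)) ^ P.natDegree) ^ 2 := by
    have h6 : (X + C (c / 4) : (ZMod p)[X]) ^ p =
        (X + C (c / 4)) * ((X + C (c / 4)) ^ P.natDegree) ^ 2 := by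
      rw [← pow_mul, ← pow_succ']
      congr 1
      omega
    rw [h6] at e2
    apply mul_left_cancel₀ (mul_ne_zero h40 hX0)
    linear_combination e2
  exact ⟨c / 4, sq_cases _ _ e3⟩

lemma case_two (P : (ZMod p)[X]) (hS : ∑ x : ZMod p, (P.eval x).val = p)
    (hpos : 0 < P.natDegree) (hdeg : 2 * P.natDegree + 1 = p)
    (hval : ∀ x : ZMod p, 2 ≤ (P.eval x).val → (P.eval x).val = 2) :
    ∃ c : ZMod p, P - 1 = (X + C c) ^ P.natDegree ∨ P - 1 = - (X + C c) ^ P.natDegree := by
  have hP0 : P ≠ 0 := fun h => by simp [h] at hpos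
  obtain ⟨h4, h5⟩ := natDegree_g P hS hpos (by omega)
  have hXg : (X + (hpoly P - X ^ p)).natDegree = P.natDegree + 1 := by
    rw [natDegree_add_eq_right_of_natDegree_lt, h4]
    rw [natDegree_X, h4]; omega
  have hXg0 : X + (hpoly P - X ^ p) ≠ 0 := fun h => by
    rw [h, natDegree_zero] at hXg; omega
  have hc1 := card_le_natDegree _ hXg0 (univ.filter (fun x : ZMod p => ¬ P.eval x = 0)) (by
    intro x hx
    rw [Finset.mem_filter] at hx
    rw [eval_add, eval_sub, hpoly_eval_eq_zero P x hx.2]
    simp [ZMod.pow_card])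
  have hc2 := Finset.card_filter_add_card_filter_not (s := (Finset.univ : Finset (ZMod p)))
    (fun x : ZMod p => P.eval x = 0)
  rw [Finset.card_univ, ZMod.card] at hc2
  have hc3 : (univ.filter (fun x : ZMod p => P.eval x = 0)).card ≤ P.natDegree :=
    card_le_natDegree P hP0 _ (by simp)
  have hsum := sum_val_sub_one P hS
  have h6 : ∑ x : ZMod p, ((P.eval x).val - 1) =
      (univ.filter (fun x : ZMod p => 2 ≤ (P.eval x).val)).card := by
    rw [Finset.card_filter]
    refine Finset.sum_congr rfl fun x _ => ?_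
    split_ifs with h
    · rw [hval x h]
    · omega
  have h7 : (univ.filter (fun x : ZMod p => ¬ P.eval x = 0)).card =
      (univ.filter (fun x : ZMod p => (P.eval x).val = 1)).card +
      (univ.filter (fun x : ZMod p => 2 ≤ (P.eval x).val)).card := by
    rw [Finset.card_filter, Finset.card_filter, Finset.card_filter, ← Finset.sum_add_distrib]
    refine Finset.sum_congr rfl fun x _ => ?_
    by_cases h0 : P.eval x = 0
    · simp [h0]
    · have h1 : (P.eval x).val ≠ 0 := fun h => h0 ((ZMod.val_eq_zero _).1 h)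
      rw [if_pos h0]
      split_ifs <;> omega
  have h8 : (univ.filter (fun x : ZMod p => (P.eval x).val = 1)).card = 1 := by omega
  obtain ⟨x0, hx0⟩ := Finset.card_eq_one.1 h8
  have hmem : ∀ x, (P.eval x).val = 1 ↔ x = x0 := by
    intro x
    have : x ∈ univ.filter (fun x : ZMod p => (P.eval x).val = 1) ↔ x ∈ ({x0} : Finset (ZMod p)) := by
      rw [hx0]
    simpa using this
  have hd1 : (P - 1).natDegree = P.natDegree := by
    rw [← C_1, natDegree_sub_C]
  have hp1 : p - 1 ≠ 0 := by omega
  have heq : (P - 1) ^ 2 - (X - C x0) ^ (p - 1) = 0 := by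
    by_contra hne
    have := card_le_natDegree _ hne Finset.univ (by
      intro x _
      rw [eval_sub, eval_pow, eval_pow, eval_sub, eval_sub, eval_X, eval_C, eval_one]
      by_cases hx : x = x0
      · have h9 := val_eq_one_iff _ ((hmem x).2 hx)
        rw [h9, hx, sub_self, sub_self, zero_pow two_ne_zero, zero_pow hp1, sub_zero]
      · have h10 : x - x0 ≠ 0 := sub_ne_zero.2 hx
        rw [ZMod.pow_card_sub_one_eq_one h10]
        have h11 : (P.eval x).val ≠ 1 := fun h => hx ((hmem x).1 h)
        rcases Nat.lt_or_ge (P.eval x).val 2 with h | h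
        · have h12 : (P.eval x).val = 0 := by omega
          rw [(ZMod.val_eq_zero _).1 h12]; ring
        · have h13 := hval x h
          have h14 : P.eval x = 2 := by
            have := ZMod.natCast_zmod_val (P.eval x)
            rw [h13] at this
            rw [← this]; norm_num
          rw [h14]; ring)
    rw [Finset.card_univ, ZMod.card] at this
    have h15 : ((P - 1) ^ 2 - (X - C x0) ^ (p - 1)).natDegree ≤ p - 1 := by
      refine (natDegree_sub_le _ _).trans (max_le ?_ ?_)
      · rw [natDegree_pow, hd1]; omega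
      · simp
    omega
  refine ⟨-x0, sq_cases _ _ ?_⟩
  rw [C_neg, ← sub_eq_add_neg, sub_eq_zero.1 heq, ← pow_mul]
  congr 1
  omega


/-- The range sum of a polynomial over `ZMod p`: the sum, in the natural numbers, of the least
non-negative representatives of its values. -/
noncomputable def rangeSum (P : (ZMod p)[X]) : ℕ := ∑ x : ZMod p, (P.eval x).val

/-- `P` is an affine translate of `Q`: `P = Q(a x + b)` with `a ≠ 0`. -/
def IsAffineTranslate (P Q : (ZMod p)[X]) : Prop :=
  ∃ a b : ZMod p, a ≠ 0 ∧ P = Q.comp (C a * X + C b)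

variable (p) in
/-- `E₁ = x^((p-1)/2) + 1`. -/
noncomputable def E1 : (ZMod p)[X] := X ^ ((p - 1) / 2) + 1

variable (p) in
/-- `E₂ = ((p+1)/2) (x^((p-1)/2) + 1)`. -/
noncomputable def E2 : (ZMod p)[X] := C (((p + 1) / 2 : ℕ) : ZMod p) * (X ^ ((p - 1) / 2) + 1)

lemma half_mul_two (hp2 : p ≠ 2) : (((p + 1) / 2 : ℕ) : ZMod p) * 2 = 1 := by
  obtain ⟨m, hm⟩ := hp.out.odd_of_ne_two hp2
  have : (p + 1) / 2 * 2 = p + 1 := by omega
  have h2 := congrArg (Nat.cast : ℕ → ZMod p) this
  rw [Nat.cast_mul, Nat.cast_add, ZMod.natCast_self, Nat.cast_ofNat, Nat.cast_one, zero_add] at h2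
  exact h2

lemma main_bound (hp2 : p ≠ 2) (P : (ZMod p)[X]) (hpos : 0 < P.natDegree)
    (hS : rangeSum P = p) (h1 : ¬ IsAffineTranslate P (E1 p)) (h2 : ¬ IsAffineTranslate P (E2 p)) :
    16 * (p - 1) ≤ 31 * P.natDegree := by
  unfold rangeSum at hS
  by_cases hdeg : P.natDegree < p
  swap
  · omega
  rcases Nat.eq_zero_or_pos (derivative (hpoly P) + P).natDegree with hk | hk
  swap
  · have := bound_of_K_pos hp2 P hS hpos hdeg hk
    omega
  -- the extremal case
  exfalso
  obtain ⟨hKd, hK0⟩ := K_natDegree P hS hpos hdeg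
  rw [hk, zero_add] at hKd
  have hd : (p - 1) / 2 = P.natDegree := by omega
  have hKc := eq_C_of_natDegree_eq_zero hk
  set κ := (derivative (hpoly P) + P).coeff 0 with hκ
  have hvalκ : ∀ x : ZMod p, 2 ≤ (P.eval x).val → (P.eval x).val = κ.val := by
    intro x hx
    have := K_eval P x hx
    rw [hKc, eval_C] at this
    rw [this]
  obtain ⟨x1, hx1⟩ := exists_ge_two P hS hpos hdeg
  have hκ2 : 2 ≤ κ.val := by rw [← hvalκ x1 hx1]; exact hx1
  have hP0 : P ≠ 0 := fun h => by simp [h] at hpos
  rcases Nat.eq_or_lt_of_le hκ2 with hm | hm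
  · -- all large values are 2
    obtain ⟨c, hc⟩ := case_two P hS hpos hKd.symm (fun x hx => by rw [hvalκ x hx, ← hm])
    apply h1
    rcases hc with hc | hc
    · refine ⟨1, c, one_ne_zero, ?_⟩
      unfold E1
      rw [hd]
      simp only [add_comp, pow_comp, X_comp, one_comp, C_1, one_mul]
      rw [← hc]; ring
    · obtain ⟨a, b, ha, hab⟩ := exists_affine hp2 P.natDegree hKd.symm c
      refine ⟨a, b, ha, ?_⟩
      unfold E1
      rw [hd]
      simp only [add_comp, pow_comp, X_comp, one_comp]
      rw [hab, ← hc]; ring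
  · -- the large value is at least 3
    have hn0 : (univ.filter (fun x : ZMod p => P.eval x = 0)).card ≤ P.natDegree :=
      card_le_natDegree P hP0 _ (by simp)
    have hsum := sum_val_sub_one P hS
    have h6 : 2 * (univ.filter (fun x : ZMod p => 2 ≤ (P.eval x).val)).card ≤
        ∑ x : ZMod p, ((P.eval x).val - 1) := by
      rw [Finset.card_filter, Finset.mul_sum]
      refine Finset.sum_le_sum fun x _ => ?_
      split_ifs with h
      · rw [hvalκ x h]; omega
      · omega
    have hy := ypoly_natDegree P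
    have hypos : 0 < (ypoly P).natDegree := by
      rw [hy, Finset.card_pos]
      exact ⟨x1, by simp [hx1]⟩
    obtain ⟨c, hc⟩ := case_three hp2 P hpos hKd.symm hypos (by omega)
    apply h2
    have hh := half_mul_two (p := p) hp2
    have hhC : (C (((p + 1) / 2 : ℕ) : ZMod p) : (ZMod p)[X]) * 2 = 1 := by
      have : (2 : (ZMod p)[X]) = C 2 := (map_ofNat C 2).symm
      rw [this, ← C_mul, hh, C_1]
    rcases hc with hc | hc
    · refine ⟨1, c, one_ne_zero, ?_⟩
      unfold E2
      rw [hd]
      simp only [mul_comp, C_comp, add_comp, pow_comp, X_comp, one_comp, C_1, one_mul]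
      rw [← hc]
      linear_combination (-P) * hhC
    · obtain ⟨a, b, ha, hab⟩ := exists_affine hp2 P.natDegree hKd.symm c
      refine ⟨a, b, ha, ?_⟩
      unfold E2
      rw [hd]
      simp only [mul_comp, C_comp, add_comp, pow_comp, X_comp, one_comp]
      rw [hab, ← hc]
      linear_combination (-P) * hhC

theorem result : ∃ C : ℝ, C = 16 / 31 ∧ 1 / 2 < C ∧
    ∀ (p : ℕ) [Fact p.Prime], p ≠ 2 → ∀ P : (ZMod p)[X], 0 < P.natDegree → rangeSum P = p →
      ¬ IsAffineTranslate P (E1 p) → ¬ IsAffineTranslate P (E2 p) →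
      C * ((p : ℝ) - 1) ≤ (P.natDegree : ℝ) := by
  refine ⟨16 / 31, rfl, by norm_num, ?_⟩
  intro p hp hp2 P hpos hS h1 h2
  have h := main_bound hp2 P hpos hS h1 h2
  have hp1 : 1 ≤ p := hp.out.one_lt.le
  have h' : (16 : ℝ) * ((p : ℝ) - 1) ≤ 31 * (P.natDegree : ℝ) := by
    have := (Nat.cast_le (α := ℝ)).2 h
    rw [Nat.cast_mul, Nat.cast_mul, Nat.cast_sub hp1] at this
    simpa using this
  linarith

end Pool.Agent.Results.MP_b68c19_nt.Stability
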